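import Pool.Agent.D0H73.OP.Stm

/-!
Module CMP of the project OP: from the functional at `q` on block `k` to an exact character of block `k`.
-/

set_option autoImplicit false

namespace Pool.Agent.D0H9.OP

open Finset
open Pool.Agent.D0H73.OP
open Pool.Agent.V1192.UOD (V)

theorem prod_sv {n : ℕ} (s : Fin n → ℂ) (e : Fin n → ℕ) (K K1 : Fin n) (hK : (K1 : ℕ) = K + 1)
    (h1 : ∀ i : Fin n, (i : ℕ) < K → s i = 1) (h0 : ∀ i : Fin n, (K1 : ℕ) < i → s i = 0)
    (C : Prop) [Decidable C] (hC : C ↔ ∀ i : Fin n, (K1 : ℕ) < i → e i = 0) :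
    ∏ i, s i ^ e i = if C then s K ^ e K * s K1 ^ e K1 else 0 := by
  split_ifs with h
  · rw [hC] at h
    have hne : K ≠ K1 := by
      intro h'
      rw [h'] at hK
      omega
    apply Fintype.prod_eq_mul K K1 hne
    rintro i ⟨h2, h3⟩
    have h2' : (i : ℕ) ≠ K := fun h' => h2 (Fin.ext h')
    have h3' : (i : ℕ) ≠ K1 := fun h' => h3 (Fin.ext h')
    rcases Nat.lt_or_ge (i : ℕ) K with h4 | h4
    · rw [h1 i h4, one_pow]
    · rw [h i (by omega), pow_zero]
  · rw [hC] at h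
    push Not at h
    obtain ⟨i, hi, he⟩ := h
    apply Finset.prod_eq_zero (mem_univ i)
    rw [h0 i hi, zero_pow he]

section

variable {p : ℕ} [Fact p.Prime] {N : ℕ → ℕ} {n : ℕ}

open Classical in
theorem fib (K : Fin n) (F : H p N n → ℂ) (φ : V p (N K) → ℂ) :
    ∑ v, (∑ g ∈ univ.filter (fun g : H p N n => g K = v), F g) * φ v = ∑ g, F g * φ (g K) := by
  rw [← Finset.sum_fiberwise (s := univ) (g := fun g : H p N n => g K) (f := fun g => F g * φ (g K))]
  refine sum_congr rfl fun v _ => ?_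
  rw [sum_mul]
  refine sum_congr rfl fun g hg => ?_
  rw [(mem_filter.1 hg).2]

open Classical in
theorem Ex_delta (K : Fin n) (F : H p N n → ℂ) :
    ∑ g, Ex K (fun h => if h = g then 1 else 0) * F g = Ex K F := by
  unfold Ex
  rw [Finset.sum_congr rfl (fun g _ => mul_assoc _ _ _), ← Finset.mul_sum]
  congr 1
  simp only [Finset.sum_mul]
  rw [Finset.sum_comm]
  refine sum_congr rfl fun j _ => ?_
  rw [Finset.sum_comm]
  refine sum_congr rfl fun a _ => ?_
  simp

open Classical in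
theorem Ex_real (g : H p N n) : ∃ t : Fin n → ℝ, (∀ i, 0 ≤ t i) ∧
    ∀ i, Ex i (fun h : H p N n => if h = g then 1 else 0) = (t i : ℂ) := by
  have hp : (1 : ℝ) < p := by exact_mod_cast (Fact.out : p.Prime).one_lt
  refine ⟨fun i => (1 / ((N i : ℝ) * ((p : ℝ) - 1))) *
    ∑ j : Fin (N i), ∑ a ∈ (univ : Finset (ZMod p)).erase 0,
      (if (Pi.single i (Pi.single j a) : H p N n) = g then 1 else 0), fun i => ?_, fun i => ?_⟩
  · apply mul_nonneg
    · apply div_nonneg zero_le_one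
      apply mul_nonneg (Nat.cast_nonneg _)
      linarith
    · exact Finset.sum_nonneg fun j _ => Finset.sum_nonneg fun a _ => by split_ifs <;> norm_num
  · unfold Ex
    push_cast
    congr 1
    refine sum_congr rfl fun j _ => sum_congr rfl fun a _ => ?_
    split_ifs <;> simp

open Classical in
theorem delta_le (hw : ∀ i, 0 < w p i) (K : Fin n) (g : H p N n) :
    ‖(w p K : ℂ) * Ex K (fun h : H p N n => if h = g then 1 else 0)‖ ≤ ‖(aa g : ℂ)‖ := by
  obtain ⟨t, ht0, ht⟩ := Ex_real (N := N) g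
  have h1 : (aa g : ℂ) = ((∑ i : Fin n, w p i * t i : ℝ) : ℂ) := by
    unfold aa
    push_cast
    refine sum_congr rfl fun i _ => ?_
    rw [ht i]
  have h2 : ∀ i : Fin n, 0 ≤ w p i * t i := fun i => mul_nonneg (hw _).le (ht0 i)
  rw [h1, ht K, ← Complex.ofReal_mul, Complex.norm_real, Complex.norm_real, Real.norm_eq_abs,
    Real.norm_eq_abs, abs_of_nonneg (h2 K), abs_of_nonneg (Finset.sum_nonneg fun i _ => h2 i)]
  exact Finset.single_le_sum (f := fun i : Fin n => w p i * t i) (fun i _ => h2 i) (mem_univ K)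

theorem chr_zero {M : ℕ} (u : V p M) : chr u 0 = 1 := by
  unfold chr
  simp

theorem chr_add {M : ℕ} (u v v' : V p M) : chr u (v + v') = chr u v * chr u v' := by
  unfold chr
  rw [← AddChar.map_add_eq_mul, ← Finset.sum_add_distrib]
  congr 1
  refine sum_congr rfl fun j _ => ?_
  rw [Pi.add_apply, mul_add]

theorem chr_norm {M : ℕ} (u v : V p M) : ‖chr u v‖ = 1 := by
  unfold chr
  exact AddChar.norm_apply _ _

theorem Ex_congr (K : Fin n) (F F' : H p N n → ℂ)
    (h : ∀ j : Fin (N K), ∀ a : ZMod p, F (Pi.single K (Pi.single j a)) =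
      F' (Pi.single K (Pi.single j a))) : Ex K F = Ex K F' := by
  unfold Ex
  congr 1
  exact sum_congr rfl fun j _ => sum_congr rfl fun a _ => h j a

end

theorem t_CMP : S_CONC → S_NUM → S_AAF → S_VAL → S_CMP := by
  intro hCONC hNUM hAAF hVAL p _ N l x y d m hN hD k χ hk hχ r hr hrb
  classical
  obtain ⟨K, rfl⟩ : ∃ K : Fin (l + 2), k = (K : ℕ) := ⟨⟨k, by omega⟩, rfl⟩
  obtain ⟨K1, hK1⟩ : ∃ K1 : Fin (l + 2), (K1 : ℕ) = K + 1 := ⟨⟨K + 1, by omega⟩, rfl⟩
  obtain ⟨hw, htau, htsum, -, -, -⟩ := hNUM p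
  have hp2 : (2 : ℝ) ≤ p := by exact_mod_cast (Fact.out : p.Prime).two_le
  have hwK := hw K
  have hwK1 := hw (K + 1)
  have hwdef : w p (K + 1) = w p K ^ 2 / (1000 * p) := rfl
  have htdef : tau p K = w p (K + 1) ^ 4 / 10 ^ 10 := rfl
  obtain ⟨q, hq⟩ : ∃ q : ℝ, q = -r / w p K := ⟨_, rfl⟩
  have hqb : |q| ≤ 1 / (8 * p) := by
    rw [hq, abs_div, abs_neg, abs_of_pos hwK.1, div_le_iff₀ hwK.1]
    calc |r| ≤ w p K / (8 * p) := hrb
      _ = _ := by ring
  obtain ⟨D, hDb⟩ : ∃ D : ℕ, ∀ v : V p (N K1), d K1 v ≤ D :=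
    ⟨univ.sup (d K1), fun v => le_sup (mem_univ v)⟩
  obtain ⟨Cn, hCn⟩ : ∃ Cn : H p N (l + 2) → Prop, ∀ g, Cn g ↔
      ∀ i : Fin (l + 2), (K1 : ℕ) < i → d i (g i) = 0 := ⟨_, fun _ => Iff.rfl⟩
  obtain ⟨A, hA⟩ : ∃ A : V p (N K) → ℂ, ∀ v, A v =
      ∑ g ∈ univ.filter (fun g : H p N (l + 2) => g K = v),
        (w p K : ℂ) * Ex K (fun h : H p N (l + 2) => if h = g then 1 else 0) := ⟨_, fun _ => rfl⟩
  obtain ⟨B, hB⟩ : ∃ B : Fin (D + 1) → V p (N K) → ℂ, ∀ j v, B j v =
      ∑ g ∈ univ.filter (fun g : H p N (l + 2) => g K = v),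
        (if d K1 (g K1) = (j : ℕ) ∧ Cn g then x g * χ g else 0) := ⟨_, fun _ _ => rfl⟩
  have hAb : ∀ v, ‖A v‖ ≤ m K v := by
    intro v
    rw [hA]
    refine (norm_sum_le _ _).trans (le_trans ?_ (hD.ma K v))
    exact Finset.sum_le_sum fun g _ => delta_le (fun i => (hw i).1) K g
  have hBb : ∀ j v, ‖B j v‖ ≤ m K v := by
    intro j v
    rw [hB]
    refine (norm_sum_le _ _).trans (le_trans ?_ (hD.mx K v))
    refine Finset.sum_le_sum fun g _ => ?_
    split_ifs
    · rw [norm_mul, hχ.norm, mul_one]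
    · rw [norm_zero]
      exact norm_nonneg _
  have hm0 : ∀ v, 0 ≤ m K v := fun v => (norm_nonneg _).trans (hAb v)
  obtain ⟨u, hu⟩ := hCONC p (N K) (m K) 16 (tau p K) (d K) (by norm_num) (htau K).1 (htau K).2.1
    (hD.pkg K) hm0 (hD.msym K) (hD.mtot K) q hqb (Option (Fin (D + 1)))
    (fun o v => o.elim (A v) (fun j => B j v)) (fun o => o.elim 1 (fun j => (1 / 2 : ℝ) ^ (j : ℕ)))
    (by
      intro o
      cases o with
      | none => simp
      | some j => simp)
    (by
      intro o v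
      cases o with
      | none => exact hAb v
      | some j => exact hBb j v)
  simp only [Fintype.sum_option, Option.elim_none, Option.elim_some, one_mul] at hu
  have hgeo : ∑ j : Fin (D + 1), (1 / 2 : ℝ) ^ (j : ℕ) ≤ 2 := by
    rw [Fin.sum_univ_eq_sum_range (fun j => (1 / 2 : ℝ) ^ j) (D + 1)]
    exact sum_geometric_two_le _
  have hsq : Real.sqrt (tau p K) = w p (K + 1) ^ 2 / 10 ^ 5 := by
    rw [htdef, show w p (K + 1) ^ 4 / 10 ^ 10 = (w p (K + 1) ^ 2 / 10 ^ 5) ^ 2 by ring]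
    exact Real.sqrt_sq (by positivity)
  rw [hsq] at hu
  have htot : (1 + ∑ j : Fin (D + 1), (1 / 2 : ℝ) ^ (j : ℕ)) * (3 * 16 * (w p (K + 1) ^ 2 / 10 ^ 5)) ≤
      w p (K + 1) ^ 2 / 500 := by
    have h0 : 0 ≤ w p (K + 1) ^ 2 := sq_nonneg _
    nlinarith
  obtain ⟨φ, hφ⟩ : ∃ φ : V p (N K) → ℂ, ∀ v, φ v = chr u v - (q : ℂ) ^ d K v := ⟨_, fun _ => rfl⟩
  simp only [← hφ] at hu
  have hS0 : 0 ≤ ∑ j : Fin (D + 1), (1 / 2 : ℝ) ^ (j : ℕ) * ‖∑ v, B j v * φ v‖ :=
    Finset.sum_nonneg fun j _ => by positivity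
  have hA1 : ‖∑ v, A v * φ v‖ ≤ w p (K + 1) ^ 2 / 500 := by linarith
  have hB1 : ∑ j : Fin (D + 1), (1 / 2 : ℝ) ^ (j : ℕ) * ‖∑ v, B j v * φ v‖ ≤
      w p (K + 1) ^ 2 / 500 := by
    have := norm_nonneg (∑ v, A v * φ v)
    linarith
  -- the new character
  obtain ⟨χ', hχ'⟩ : ∃ χ' : H p N (l + 2) → ℂ, ∀ g, χ' g = χ g * chr u (g K) := ⟨_, fun _ => rfl⟩
  have hchr : IsChr (K + 1) χ' := by
    refine ⟨fun g h => ?_, fun g => ?_, fun g hg => ?_⟩
    · rw [hχ', hχ', hχ', hχ.add, Pi.add_apply, chr_add]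
      ring
    · rw [hχ', norm_mul, hχ.norm, chr_norm, mul_one]
    · rw [hχ', hχ.triv g fun i hi => hg i (by omega), hg K (by omega), chr_zero, mul_one]
  have hgen1 : ∀ (j : Fin (N K)) (a : ZMod p),
      χ (Pi.single K (Pi.single j a) : H p N (l + 2)) = 1 := by
    intro j a
    apply hχ.triv
    intro i hi
    exact Pi.single_eq_of_ne (fun h => by rw [h] at hi; omega) _
  have hreal : ∀ i : Fin (l + 2), ∃ t : ℝ, Ex i χ' = (t : ℂ) := fun i =>
    (hAAF p N (l + 2) hN).2.2.2 i χ' hchr.add hchr.norm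
  choose t ht using hreal
  have htt : tt (K + 1) χ' = (r : ℂ) + (w p K : ℂ) * Ex K χ' := by
    unfold tt
    have h1 : univ.filter (fun i : Fin (l + 2) => (i : ℕ) < K + 1) =
        insert K (univ.filter (fun i : Fin (l + 2) => (i : ℕ) < K)) := by
      ext i
      rw [mem_insert, mem_filter, mem_filter]
      simp only [mem_univ, true_and]
      constructor
      · intro h
        rcases Nat.lt_or_ge (i : ℕ) K with h2 | h2
        · exact Or.inr h2
        · exact Or.inl (Fin.ext (by omega))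
      · rintro (h | h)
        · rw [h]; omega
        · omega
    rw [h1, Finset.sum_insert (by simp), add_comm]
    congr 1
    rw [← hr]
    unfold tt
    refine sum_congr rfl fun i hi => ?_
    rw [mem_filter] at hi
    congr 1
    apply Ex_congr
    intro j a
    rw [hχ']
    have h2 : (Pi.single i (Pi.single j a) : H p N (l + 2)) K = 0 :=
      Pi.single_eq_of_ne (fun h => by rw [h] at hi; omega) _
    rw [h2, chr_zero, mul_one]
  -- the values on the generators of block `K`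
  have hEA : ∑ v, A v * φ v = (w p K : ℂ) * (Ex K χ' - Ex K (Ph d χ (sv K (q : ℂ) 0))) := by
    have h1 : ∑ v, A v * φ v = ∑ g : H p N (l + 2),
        ((w p K : ℂ) * Ex K (fun h : H p N (l + 2) => if h = g then 1 else 0)) * φ (g K) := by
      rw [← fib K (fun g => (w p K : ℂ) * Ex K (fun h : H p N (l + 2) => if h = g then 1 else 0)) φ]
      refine sum_congr rfl fun v _ => ?_
      rw [hA]
    rw [h1]
    simp only [mul_assoc]
    rw [← Finset.mul_sum, Ex_delta]
    congr 1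
    have h2 : Ex K χ' - Ex K (Ph d χ (sv K (q : ℂ) 0)) =
        Ex K (fun g => χ' g - Ph d χ (sv K (q : ℂ) 0) g) := by
      unfold Ex
      rw [← mul_sub, ← Finset.sum_sub_distrib]
      congr 1
      refine sum_congr rfl fun j _ => ?_
      rw [← Finset.sum_sub_distrib]
    rw [h2]
    apply Ex_congr
    intro j a
    rw [hφ, hχ', hgen1, one_mul]
    congr 1
    unfold Ph
    rw [hgen1, one_mul]
    symm
    rw [prod_sv (sv (K : ℕ) (q : ℂ) 0) _ K K1 hK1 (fun i hi => by unfold sv; rw [if_pos hi])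
      (fun i hi => by
        unfold sv
        rw [if_neg (by omega), if_neg (by omega), if_neg (by omega)])
      True (by
        refine ⟨fun _ i hi => ?_, fun _ => trivial⟩
        have h3 : (Pi.single K (Pi.single j a) : H p N (l + 2)) i = 0 :=
          Pi.single_eq_of_ne (fun h => by rw [h] at hi; omega) _
        rw [h3]
        exact (hD.pkg i).zero)]
    rw [if_pos trivial]
    have h4 : (Pi.single K (Pi.single j a) : H p N (l + 2)) K1 = 0 :=
      Pi.single_eq_of_ne (fun h => by rw [h] at hK1; omega) _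
    rw [h4, (hD.pkg K1).zero, pow_zero, mul_one]
    unfold sv
    rw [if_neg (by omega), if_pos rfl]
  have hval : ‖Ex K (Ph d χ (sv K (q : ℂ) 0)) - (q : ℂ)‖ ≤ 2 * tau p K := by
    have hqh : ‖(q : ℂ)‖ ≤ 1 / 2 := by
      rw [Complex.norm_real, Real.norm_eq_abs]
      refine hqb.trans ?_
      apply one_div_le_one_div_of_le (by norm_num)
      linarith
    have h1 := (hVAL p N (l + 2) d m (fun i => tau p i) K χ (sv K (q : ℂ) 0) hN hD.pkg hχ
      (fun i hi => by unfold sv; rw [if_pos hi])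
      (fun i hi => by
        unfold sv
        rw [if_neg (by omega)]
        split_ifs
        · exact hqh
        · norm_num
        · norm_num)).1 K le_rfl
    have h2 : sv (K : ℕ) (q : ℂ) 0 K = (q : ℂ) := by
      unfold sv
      rw [if_neg (by omega), if_pos rfl]
    rwa [h2] at h1
  refine ⟨χ', hchr, ⟨r + w p K * t K, ?_, ?_⟩, ?_⟩
  · rw [htt, ht]
    push_cast
    ring
  · have h1 : ((r + w p K * t K : ℝ) : ℂ) = (w p K : ℂ) * (Ex K χ' - Ex K (Ph d χ (sv K (q : ℂ) 0))) +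
        (w p K : ℂ) * (Ex K (Ph d χ (sv K (q : ℂ) 0)) - (q : ℂ)) := by
      have h2 : (r : ℂ) = -((w p K : ℂ) * (q : ℂ)) := by
        rw [hq]
        push_cast
        have : (w p K : ℂ) ≠ 0 := by exact_mod_cast hwK.1.ne'
        field_simp
      rw [ht]
      push_cast
      rw [h2]
      ring
    have h2 : |r + w p K * t K| ≤ w p (K + 1) ^ 2 / 500 + w p K * (2 * tau p K) := by
      rw [← Real.norm_eq_abs, ← Complex.norm_real, h1]
      refine (norm_add_le _ _).trans (add_le_add ?_ ?_)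
      · rw [← hEA]
        exact hA1
      · rw [norm_mul, Complex.norm_real, Real.norm_eq_abs, abs_of_pos hwK.1]
        exact mul_le_mul_of_nonneg_left hval hwK.1.le
    refine h2.trans ?_
    obtain ⟨W, hW⟩ : ∃ W : ℝ, W = w p (K + 1) := ⟨_, rfl⟩
    have hW0 : 0 < W := by rw [hW]; exact hwK1.1
    have hWp : W * (1000 * p) ≤ 1 := by
      rw [hW, hwdef, div_mul_cancel₀ _ (by positivity)]
      exact pow_le_one₀ hwK.1.le hwK.2.1
    have hW1 : W ≤ 1 := by rw [hW]; exact hwK1.2.1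
    rw [htdef, ← hW, le_div_iff₀ (by positivity)]
    have h3 : w p K * (2 * (W ^ 4 / 10 ^ 10)) ≤ 1 * (2 * (W ^ 4 / 10 ^ 10)) :=
      mul_le_mul_of_nonneg_right hwK.2.1 (by positivity)
    have h4 : W ^ 4 ≤ W ^ 2 := pow_le_pow_of_le_one hW0.le hW1 (by norm_num)
    have h5 : W ^ 2 / 500 + w p K * (2 * (W ^ 4 / 10 ^ 10)) ≤ W ^ 2 / 100 := by
      have h6 : 0 ≤ W ^ 2 := sq_nonneg _
      nlinarith
    calc (W ^ 2 / 500 + w p K * (2 * (W ^ 4 / 10 ^ 10))) * (8 * p) ≤ W ^ 2 / 100 * (8 * p) :=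
          mul_le_mul_of_nonneg_right h5 (by positivity)
      _ = W * (W * (1000 * p)) * (8 / 100000) := by ring
      _ ≤ W * 1 * (8 / 100000) := by
          apply mul_le_mul_of_nonneg_right _ (by norm_num)
          exact mul_le_mul_of_nonneg_left hWp hW0.le
      _ ≤ W := by linarith
  · intro ζ hζ
    have hqe : ((-r / w p K : ℝ) : ℂ) = (q : ℂ) := by rw [hq]
    rw [hqe]
    have hmain : ap x (Ph d χ' (sv (K + 1) ζ 0)) - ap x (Ph d χ (sv K (q : ℂ) ζ)) =
        ∑ j : Fin (D + 1), ζ ^ (j : ℕ) * ∑ v, B j v * φ v := by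
      have h1 : ∀ j : Fin (D + 1), ∑ v, B j v * φ v = ∑ g : H p N (l + 2),
          (if d K1 (g K1) = (j : ℕ) ∧ Cn g then x g * χ g else 0) * φ (g K) := by
        intro j
        rw [← fib K (fun g => if d K1 (g K1) = (j : ℕ) ∧ Cn g then x g * χ g else 0) φ]
        refine sum_congr rfl fun v _ => ?_
        rw [hB]
      simp only [h1, Finset.mul_sum]
      rw [Finset.sum_comm]
      unfold ap
      rw [← Finset.sum_sub_distrib]
      refine sum_congr rfl fun g _ => ?_
      have h2 : ∏ i, (sv (K + 1 : ℕ) ζ 0 i) ^ d i (g i) = if Cn g then ζ ^ d K1 (g K1) else 0 := by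
        rw [prod_sv (sv (K + 1 : ℕ) ζ 0) (fun i => d i (g i)) K K1 hK1
          (fun i hi => by unfold sv; rw [if_pos (by omega)])
          (fun i hi => by
            unfold sv
            rw [if_neg (by omega), if_neg (by omega)]
            split_ifs <;> rfl) (Cn g) (hCn g)]
        have e1 : sv (K + 1 : ℕ) ζ 0 K = 1 := by unfold sv; rw [if_pos (by omega)]
        have e2 : sv (K + 1 : ℕ) ζ 0 K1 = ζ := by
          unfold sv; rw [if_neg (by omega), if_pos hK1]
        rw [e1, e2, one_pow, one_mul]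
      have h3 : ∏ i, (sv (K : ℕ) (q : ℂ) ζ i) ^ d i (g i) =
          if Cn g then (q : ℂ) ^ d K (g K) * ζ ^ d K1 (g K1) else 0 := by
        rw [prod_sv (sv (K : ℕ) (q : ℂ) ζ) (fun i => d i (g i)) K K1 hK1
          (fun i hi => by unfold sv; rw [if_pos hi])
          (fun i hi => by
            unfold sv
            rw [if_neg (by omega), if_neg (by omega), if_neg (by omega)]) (Cn g) (hCn g)]
        have e1 : sv (K : ℕ) (q : ℂ) ζ K = (q : ℂ) := by
          unfold sv; rw [if_neg (by omega), if_pos rfl]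
        have e2 : sv (K : ℕ) (q : ℂ) ζ K1 = ζ := by
          unfold sv; rw [if_neg (by omega), if_neg (by omega), if_pos hK1]
        rw [e1, e2]
      unfold Ph
      rw [h2, h3, hχ']
      by_cases hc : Cn g
      · rw [if_pos hc, if_pos hc]
        rw [Fin.sum_univ_eq_sum_range (fun j => ζ ^ j *
          ((if d K1 (g K1) = j ∧ Cn g then x g * χ g else 0) * φ (g K))) (D + 1),
          Finset.sum_eq_single (d K1 (g K1))]
        · rw [if_pos ⟨rfl, hc⟩, hφ]
          ring
        · intro j _ hj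
          rw [if_neg (fun h => hj h.1.symm), zero_mul, mul_zero]
        · intro h
          exact absurd (mem_range.2 (Nat.lt_succ_of_le (hDb _))) h
      · rw [if_neg hc, if_neg hc]
        simp only [mul_zero, sub_zero]
        symm
        apply Finset.sum_eq_zero
        intro j _
        rw [if_neg (fun h => hc h.2), zero_mul, mul_zero]
    rw [hmain]
    refine (norm_sum_le _ _).trans ?_
    have h4 : ∑ j : Fin (D + 1), ‖ζ ^ (j : ℕ) * ∑ v, B j v * φ v‖ ≤
        ∑ j : Fin (D + 1), (1 / 2 : ℝ) ^ (j : ℕ) * ‖∑ v, B j v * φ v‖ := by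
      refine Finset.sum_le_sum fun j _ => ?_
      rw [norm_mul, norm_pow]
      exact mul_le_mul_of_nonneg_right (pow_le_pow_left₀ (norm_nonneg _) hζ _) (norm_nonneg _)
    refine h4.trans (hB1.trans ?_)
    have h0 : 0 ≤ w p (K + 1) ^ 2 := sq_nonneg _
    linarith

end Pool.Agent.D0H9.OP
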